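import Pool.Agent.X234.SD.Final

/-!
# The supercongruence `S_1(p) ≡ 0 (mod p^5)`

`S p r` is the sum `∑_{0 ≤ k ≤ N} (2Nk - 1) ((-1/N)_k / k!)^(2N)` with `N = p^r - 1`, where
`rf a k = a (a+1) ... (a+k-1)`. For every prime `p > 3` the rational number `S p 1` is zero or has
`p`-adic valuation at least `5`.
-/

namespace Pool.Agent.Results.MP_7fc841_nt.ModPFive

open Pool.Agent.X234.SC (CongrMod)
open Pool.Agent.X234.SD

theorem result : ∀ p : ℕ, p.Prime → 3 < p → CongrMod p 5 (S p 1) 0 := by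
  intro p hp h3
  haveI : Fact p.Prime := ⟨hp⟩
  exact congr_five p h3

end Pool.Agent.Results.MP_7fc841_nt.ModPFive
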